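import Pool.Agent.H84.S2.TgB
import Pool.Agent.H70.SF.DSO

/-!
# Regularity of a section along logarithmic vector fields
-/

set_option autoImplicit false

namespace Pool.Agent.H24.S2

open MvPolynomial SC
open Pool.Agent.H84.SM (cr dt dp)
open Pool.Agent.H92.SF (Q2 C3 cc rv zv muc gxr pc wc Psi ev2 WH)
open Pool.Agent.H3.SF (Itg Bb BB Hm eu grd hes E Ps Sec Tw)
open Pool.Agent.H84.SF
open Pool.Agent.H84.S2
open Pool.Agent.H62.HIL (hm_mul hm_sub hm_one hm_zero hm_pow hm_sum hm_aeval)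
open Pool.Agent.H70.SF (HC hc_C hc_X hc_mul hc_sub hc_sum hc_pow itg_aeval hm_u mkO dsum)

section HC2

variable {k F : Type} [Field k] [Field F] [Algebra k F] {E : Derivation k F F}

theorem hc_aeval2 {α t : ℤ} {b : MvPolynomial (Fin 2) F} (n : ℕ) (hb : b.IsHomogeneous n)
    (hc : ∀ a, Hm k E α (b.coeff a)) (v : Fin 2 → MvPolynomial (Fin 3) F)
    (hv : ∀ i, HC E t (v i)) : HC E (α + n * t) (aeval v b) := by
  rw [b.as_sum, map_sum]
  refine hc_sum _ _ fun a ha => ?_
  have h1 := hb (mem_support_iff.mp ha)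
  rw [Finsupp.weight_apply, Finsupp.sum_fintype _ _ (by simp), Fin.sum_univ_two] at h1
  have h2 : a 0 + a 1 = n := by simpa using h1
  rw [aeval_monomial, Finsupp.prod_fintype _ _ (by simp), Fin.prod_univ_two, algebraMap_eq]
  have h3 := hc_mul (hc_C (hc a)) (hc_mul (hc_pow (hv 0) (a 0)) (hc_pow (hv 1) (a 1)))
  have h4 : α + (((a 0 : ℕ) : ℤ) * t + ((a 1 : ℕ) : ℤ) * t) = α + (n : ℤ) * t := by
    rw [← h2]
    push_cast
    ring
  rwa [h4] at h3

end HC2

/-- scaling of the variables -/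
theorem eval_scale2 {O : Type} [CommRing O] (n : ℕ) (B : MvPolynomial (Fin 2) O)
    (hB : B.IsHomogeneous n) (L : O) (w : Fin 2 → O) :
    eval (fun i => L * w i) B = L ^ n * eval w B := by
  rw [eval_eq', eval_eq', Finset.mul_sum]
  refine Finset.sum_congr rfl fun a ha => ?_
  have h1 := hB (mem_support_iff.mp ha)
  rw [Finsupp.weight_apply, Finsupp.sum_fintype _ _ (by simp), Fin.sum_univ_two] at h1
  have h2 : a 0 + a 1 = n := by simpa using h1
  rw [Fin.prod_univ_two, Fin.prod_univ_two, ← h2]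
  ring

section Main

variable {k F σ : Type} [Field k] [Field F] [Algebra k F]

/-- the linear factors of the chart -/
noncomputable def vf (m : ℕ) (x g : Fin 3 → F) (G s : F) (i : Fin 3) : MvPolynomial (Fin 3) F :=
  C s ^ 2 * (C (g i) * dp (fun i => C (x i)) X - C (m * G) * X i)

theorem pc_eq (m : ℕ) (x g : Fin 3 → F) (G s : F) (i : Fin 3) :
    pc m x g G s i = Polynomial.C (vf m x g G s i) := by
  unfold pc vf muc dp cc rv
  simp only [RingHom.comp_apply, map_mul, map_sub, map_sum, map_pow]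

theorem Psi_C (m : ℕ) (x g : Fin 3 → F) (G : F) (H : Fin 3 → Fin 3 → F) (s : F)
    (Q : MvPolynomial (Fin 2) F) : Psi m x g G H s (Polynomial.C Q) =
      Polynomial.C (aeval ![vf m x g G s 1, vf m x g G s 2] Q) := by
  unfold Psi ev2
  rw [Polynomial.coe_eval₂RingHom, Polynomial.eval₂_C]
  have h : ∀ Q : MvPolynomial (Fin 2) F,
      eval₂Hom (cc : F →+* C3 F) ![pc m x g G s 1, pc m x g G s 2] Q =
        Polynomial.C (aeval ![vf m x g G s 1, vf m x g G s 2] Q) := by
    intro Q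
    induction Q using MvPolynomial.induction_on with
    | C a =>
      rw [eval₂Hom_C]
      simp [cc, algebraMap_eq]
    | add p q hp hq => rw [map_add, map_add, map_add, hp, hq]
    | mul_X p i hp =>
      rw [map_mul, map_mul, map_mul, hp, eval₂Hom_X', aeval_X]
      congr 1
      fin_cases i
      · simp [pc_eq]
      · simp [pc_eq]
  exact h Q

theorem vf_hom (m : ℕ) (x g : Fin 3 → F) (G s : F) (i : Fin 3) :
    (vf m x g G s i).IsHomogeneous 1 := by
  unfold vf
  have h2 : (dp (fun i => C (x i)) X : MvPolynomial (Fin 3) F).IsHomogeneous 1 := by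
    unfold dp
    refine IsHomogeneous.sum _ _ _ fun i _ => ?_
    have := (isHomogeneous_C (Fin 3) (x i)).mul (isHomogeneous_X F i)
    simpa using this
  have h3 := (isHomogeneous_C (Fin 3) (g i)).mul h2
  have h4 := (isHomogeneous_C (Fin 3) ((m : F) * G)).mul (isHomogeneous_X F i)
  rw [zero_add] at h3 h4
  have h5 := ((isHomogeneous_C (Fin 3) s).pow 2).mul (h3.sub h4)
  simpa using h5

theorem vf_hc {E : Derivation k F F} (j0 m : ℕ) (x g : Fin 3 → F) (G s : F)
    (hx : ∀ i, Hm k E 1 (x i)) (hg : ∀ i, Hm k E ((m : ℤ) - 1) (g i)) (hG : Hm k E m G)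
    (hs : Hm k E j0 s) (i : Fin 3) : HC E (2 * j0 + m) (vf m x g G s i) := by
  unfold vf
  have h2 : HC E (1 + 0) (dp (fun i => C (x i)) X : MvPolynomial (Fin 3) F) := by
    unfold dp
    exact hc_sum _ _ fun i _ => hc_mul (hc_C (hx i)) (hc_X i)
  have h3 := hc_mul (hc_C (hg i)) h2
  have hmG : Hm k E m ((m : F) * G) := by
    unfold Hm at *
    rw [Derivation.leibniz, hG]
    simp
  have h4 := hc_mul (hc_C hmG) (hc_X (k := k) (E := E) i)
  have e1 : (m : ℤ) - 1 + (1 + 0) = m := by ring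
  have e2 : (m : ℤ) + 0 = m := by ring
  rw [e1] at h3
  rw [e2] at h4
  have h5 := hc_mul (hc_pow (hc_C hs) 2) (hc_sub h3 h4)
  have e3 : ((2 : ℕ) : ℤ) * (j0 : ℤ) + m = 2 * j0 + m := by push_cast; ring
  rwa [e3] at h5

/-- vector identity: `u × (g × (c × e))` -/
theorem vec_id (u g c e : Fin 3 → F) (κ M : F) (hc : dp g c = 0) (he : dp g e = κ)
    (hM : dp g u = M) (i : Fin 3) :
    g i * dp u (cr c e) - M * cr c e i = κ * cr u c i := by
  rw [← hM, ← he]
  unfold dp at hc
  rw [Fin.sum_univ_three] at hc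
  unfold dp cr
  simp only [Fin.sum_univ_three]
  fin_cases i
  · simp
    linear_combination (e 1 * u 2 - e 2 * u 1) * hc
  · simp
    linear_combination (e 2 * u 0 - e 0 * u 2) * hc
  · simp
    linear_combination (e 0 * u 1 - e 1 * u 0) * hc

end Main

theorem pf_RGA (hHMF : T_HMF) (hHDD : T_HDD) : T_RGA := by
  intro k F σ _ _ _ _ _ _ _ X u dd J j0 hY m GP hm hN s hs0 hC L0 hL0 hLs n t V hV hVd c e γ κ
    h g1 hγ hκ hh hg1
  classical
  haveI : CharZero F := charZero_of_injective_algebraMap (algebraMap k F).injective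
  set G : F := aeval X GP with hGd
  set L : F := aeval X L0 with hLd
  set Jv : F := aeval u J with hJd
  have hLne : L ≠ 0 := fun h0 => hLs (hC.pt L0 h0)
  have hm0 : (m : F) ≠ 0 := by
    have : m ≠ 0 := by omega
    exact_mod_cast this
  have hJhm : Hm k (eu u dd) (j0 : ℤ) Jv := hm_aeval (hm_u u dd hY.ddu) hY.Jh
  have hGhm : Hm k (eu u dd) (m : ℤ) G := by
    refine hm_aeval (fun i => ?_) hN.hom
    unfold Hm
    rw [hY.Xeu]
    simp
  have hgm : ∀ i, Hm k (eu u dd) ((m : ℤ) - 1) (grd dd G i) := fun i =>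
    hHDD k F u dd hY.ddu hY.comm m G i hGhm
  have hgu : dp (grd dd G) u = m * G := by
    have h1 := hGhm
    unfold Hm eu at h1
    rw [dsum] at h1
    unfold dp grd
    rw [← show ((m : ℤ) : F) * G = m * G by push_cast; ring, ← h1]
    exact Finset.sum_congr rfl fun i _ => mul_comm _ _
  -- elements of the local ring
  have hp : ∀ l, ∃ q : Os X s, (q : F) * L = u l := by
    intro l
    obtain ⟨U, hU, hUe⟩ := hY.ulin l
    obtain ⟨q, hq⟩ := mkO X s L0 hL0 hLs hLne 1 U hU
    exact ⟨q, by rw [← hUe, ← hq, pow_one]⟩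
  choose p hp using hp
  let c' : Fin 3 → F := fun l => c l - (m : F)⁻¹ * h * u l
  let γ' : Fin 3 → Os X s := fun l => γ l - (m : k)⁻¹ • (h * p l)
  have hγ' : ∀ l, (γ' l : F) * L = c' l := by
    intro l
    simp only [γ', c']
    push_cast
    rw [sub_mul, hγ, ← hp l, Algebra.smul_def, map_inv₀, map_natCast]
    ring
  have hgc : dp (grd dd G) c' = 0 := by
    have h1 : dp (grd dd G) c' = (∑ l, dd l G * c l) - (m : F)⁻¹ * h * dp (grd dd G) u := by
      unfold dp grd
      simp only [c', Fin.sum_univ_three]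
      ring
    rw [h1, hh, hgu]
    field_simp
    ring
  have hge : dp (grd dd G) e = (g1 : F) * L ^ m := hg1
  have hcr : ∀ i, cr u c' i = cr u c i := by
    intro i
    unfold cr
    simp only [c']
    ring
  let r : Fin 3 → Os X s := cr γ' κ
  have hr : ∀ i, (r i : F) * L ^ 2 = cr c' e i := by
    intro i
    simp only [r]
    unfold cr
    push_cast
    rw [← hγ' (i + 1), ← hγ' (i + 2), ← hκ (i + 1), ← hκ (i + 2)]
    ring
  -- the section
  obtain ⟨⟨hWH, hTw⟩, hItg⟩ := hV
  set Q : MvPolynomial (Fin 2) F := V.coeff 0 with hQd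
  have hVC : V = Polynomial.C Q := Polynomial.eq_C_of_natDegree_eq_zero hVd
  have hQh : Q.IsHomogeneous n := by
    have := (hWH 0).1 (by omega)
    simpa using this
  have hQm : ∀ a, Hm k (eu u dd) (-(t : ℤ) - 2 * n) (Q.coeff a) := by
    intro a
    have := hTw 0 a
    simpa using this
  let v : Fin 3 → MvPolynomial (Fin 3) F := vf m u (grd dd G) G Jv
  let P0 : MvPolynomial (Fin 3) F := aeval ![v 1, v 2] Q
  have hP0 : (Ps u dd J m G V).coeff 0 = P0 := by
    unfold Ps
    rw [hVC, Psi_C, Polynomial.coeff_C_zero]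
  have hP0i : ∀ a, Itg k u (P0.coeff a) := by
    intro a
    rw [← hP0]
    exact hItg 0 a
  have hv1 : ∀ i : Fin 2, ((![v 1, v 2] : Fin 2 → MvPolynomial (Fin 3) F) i).IsHomogeneous 1 := by
    intro i
    fin_cases i
    · exact vf_hom _ _ _ _ _ _
    · exact vf_hom _ _ _ _ _ _
  have hv2 : ∀ i : Fin 2, HC (eu u dd) (2 * j0 + m)
      ((![v 1, v 2] : Fin 2 → MvPolynomial (Fin 3) F) i) := by
    intro i
    fin_cases i
    · exact vf_hc j0 m u (grd dd G) G Jv (hm_u u dd hY.ddu) hgm hGhm hJhm 1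
    · exact vf_hc j0 m u (grd dd G) G Jv (hm_u u dd hY.ddu) hgm hGhm hJhm 2
  have hP0h : P0.IsHomogeneous n := by
    have := hQh.aeval _ hv1
    rwa [one_mul] at this
  have hP0m : ∀ a, Hm k (eu u dd) (-(t : ℤ) - 2 * n + n * (2 * j0 + m)) (P0.coeff a) :=
    hc_aeval2 n hQh hQm _ hv2
  -- the value
  have hval : eval (cr c' e) P0 = Jv ^ (2 * n) * ((g1 : F) * L ^ m) ^ n * Vc u c V := by
    have h1 : ∀ i, eval (cr c' e) (v i) = Jv ^ 2 * ((g1 : F) * L ^ m) * cr u c i := by
      intro i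
      have h2 := vec_id u (grd dd G) c' e ((g1 : F) * L ^ m) (m * G) hgc hge hgu i
      simp only [v, vf, dp, map_mul, map_sub, map_sum, map_pow, eval_C, eval_X]
      rw [← hcr i]
      unfold dp at h2
      linear_combination Jv ^ 2 * h2
    have h3 : eval (cr c' e) P0 = eval (fun i => (Jv ^ 2 * ((g1 : F) * L ^ m)) *
        (![cr u c 1, cr u c 2] : Fin 2 → F) i) Q := by
      have h4 : ∀ Q : MvPolynomial (Fin 2) F, eval (cr c' e) (aeval ![v 1, v 2] Q) =
          eval (fun i => (Jv ^ 2 * ((g1 : F) * L ^ m)) *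
            (![cr u c 1, cr u c 2] : Fin 2 → F) i) Q := by
        intro Q
        induction Q using MvPolynomial.induction_on with
        | C a => simp [algebraMap_eq]
        | add p q hp hq => rw [map_add, map_add, map_add, hp, hq]
        | mul_X p i hp =>
          rw [map_mul, map_mul, map_mul, hp, aeval_X, eval_X]
          congr 1
          fin_cases i
          · simpa using h1 1
          · simpa using h1 2
      exact h4 Q
    rw [h3, eval_scale2 n Q hQh]
    unfold Vc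
    rw [mul_pow, ← pow_mul]
  -- the coefficients in the local ring
  set D : ℤ := (j0 : ℤ) + (-(t : ℤ) - 2 * n + n * (2 * j0 + m)) with hD
  have hw : ∀ a, ∃ w : Os X s, (w : F) * L ^ D.toNat = Jv * P0.coeff a * L ^ (-D).toNat := by
    intro a
    have h1 : Hm k (eu u dd) D (Jv * P0.coeff a) := hm_mul hJhm (hP0m a)
    have h2 : Jv * P0.coeff a ∈ Algebra.adjoin k (Set.range X) := hY.JI _ (hP0i a)
    have hLm : Hm k (eu u dd) ((1 : ℕ) : ℤ) L := by
      refine hm_aeval (fun i => ?_) hL0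
      unfold Hm
      rw [hY.Xeu]
      simp
    have h3 : Hm k (eu u dd) (D.toNat : ℤ) (Jv * P0.coeff a * L ^ (-D).toNat) := by
      have h4 := hm_mul h1 (hm_pow hLm (-D).toNat)
      have h5 : D + (((-D).toNat : ℕ) : ℤ) * ((1 : ℕ) : ℤ) = (D.toNat : ℤ) := by
        push_cast
        omega
      rwa [h5] at h4
    have h6 : Jv * P0.coeff a * L ^ (-D).toNat ∈ Algebra.adjoin k (Set.range X) := by
      refine mul_mem h2 (pow_mem ?_ _)
      rw [hLd, Algebra.adjoin_range_eq_range_aeval]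
      exact ⟨L0, rfl⟩
    obtain ⟨f, hf, hfe⟩ := hHMF k F σ X u dd J j0 hY _ _ h6 h3
    obtain ⟨q, hq⟩ := mkO X s L0 hL0 hLs hLne _ f hf
    exact ⟨q, by rw [hq, hfe]⟩
  choose w hw using hw
  refine ⟨∑ a ∈ P0.support, w a * ∏ i, r i ^ a i, ?_⟩
  have hsum : (((∑ a ∈ P0.support, w a * ∏ i, r i ^ a i : Os X s)) : F) * L ^ D.toNat *
      L ^ (2 * n) = Jv * eval (cr c' e) P0 * L ^ (-D).toNat := by
    have h0 : (((∑ a ∈ P0.support, w a * ∏ i, r i ^ a i : Os X s)) : F) =
        ∑ a ∈ P0.support, (w a : F) * ∏ i, (r i : F) ^ a i := by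
      have := map_sum (Os X s).val (fun a => w a * ∏ i, r i ^ a i) P0.support
      simpa using this
    rw [h0, eval_eq', Finset.mul_sum, Finset.sum_mul, Finset.sum_mul, Finset.sum_mul]
    refine Finset.sum_congr rfl fun a ha => ?_
    have h1 := hP0h (mem_support_iff.mp ha)
    rw [Finsupp.weight_apply, Finsupp.sum_fintype _ _ (by simp), Fin.sum_univ_three] at h1
    have h2 : a 0 + a 1 + a 2 = n := by simpa using h1
    rw [Fin.prod_univ_three, Fin.prod_univ_three, ← hr 0, ← hr 1, ← hr 2, mul_pow, mul_pow,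
      mul_pow]
    have h4 : L ^ (2 * n) = (L ^ 2) ^ a 0 * (L ^ 2) ^ a 1 * (L ^ 2) ^ a 2 := by
      rw [← pow_add, ← pow_add, h2, pow_mul]
    rw [h4]
    have h5 := hw a
    linear_combination ((r 0 : F) ^ a 0 * (r 1 : F) ^ a 1 * (r 2 : F) ^ a 2 *
      ((L ^ 2) ^ a 0 * (L ^ 2) ^ a 1 * (L ^ 2) ^ a 2)) * h5
  rw [hval] at hsum
  set f0 : F := (((∑ a ∈ P0.support, w a * ∏ i, r i ^ a i : Os X s)) : F) with hf0
  have e1 : D.toNat + 2 * n + t = (2 * n + 1) * j0 + (m * n + (-D).toNat) := by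
    have h1 : (D.toNat : ℤ) - ((-D).toNat : ℤ) = D := by omega
    zify
    have h2 : (D.toNat : ℤ) = D + ((-D).toNat : ℤ) := by linarith
    rw [h2, hD]
    ring
  apply mul_right_cancel₀ (pow_ne_zero (m * n + (-D).toNat) hLne)
  calc f0 * L ^ ((2 * n + 1) * j0) * L ^ (m * n + (-D).toNat)
      = f0 * L ^ (D.toNat + 2 * n + t) := by rw [e1, pow_add]; ring
    _ = (f0 * L ^ D.toNat * L ^ (2 * n)) * L ^ t := by rw [pow_add, pow_add]; ring
    _ = _ := by
      rw [hsum, pow_add L (m * n), mul_pow, ← pow_mul, pow_succ Jv]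
      ring

end Pool.Agent.H24.S2
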