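import Pool.Agent.H84.S2.TgB

/-!
# Coefficients of a polynomial with values in a subspace
-/

set_option autoImplicit false

namespace Pool.Agent.H24.S2

open Pool.Agent.H84.S2

theorem pf_VDM : T_VDM := by
  intro k F _ _ _ _ Z n g h i hi
  let v : Fin (n + 1) → k := fun j => ((j : ℕ) : k)
  have hv : Function.Injective v := by
    intro a b e
    exact Fin.ext (Nat.cast_injective (R := k) e)
  let A : Matrix (Fin (n + 1)) (Fin (n + 1)) k := Matrix.vandermonde v
  have hA : IsUnit A.det := (Matrix.det_vandermonde_ne_zero_iff.mpr hv).isUnit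
  have hi' : i < n + 1 := Nat.lt_succ_of_le hi
  have key : g i = ∑ j, (A⁻¹) ⟨i, hi'⟩ j • ∑ l : Fin (n + 1), A j l • g l := by
    simp_rw [Finset.smul_sum, smul_smul]
    rw [Finset.sum_comm]
    simp_rw [← Finset.sum_smul]
    have h1 : ∀ l : Fin (n + 1), ∑ j, A⁻¹ ⟨i, hi'⟩ j * A j l =
        (1 : Matrix (Fin (n + 1)) (Fin (n + 1)) k) ⟨i, hi'⟩ l := by
      intro l
      rw [← Matrix.mul_apply, Matrix.nonsing_inv_mul A hA]
    simp_rw [h1, Matrix.one_apply]
    simp [ite_smul]
  rw [key]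
  refine Z.sum_mem fun j _ => Z.smul_mem _ ?_
  have h2 := h (v j)
  rw [Finset.sum_range (fun i => (v j) ^ i • g i)] at h2
  simpa only [A, Matrix.vandermonde_apply] using h2

end Pool.Agent.H24.S2
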